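import Pool.Agent.H53.GM.Targets2

/-!
# Correctness of the reduction: from colourings to assignments
-/

set_option autoImplicit false

namespace Pool.Agent.H81.GM

open Pool.Agent.H68.BP Pool.Agent.H58.SF Pool.Agent.H53.GC Pool.Agent.H53.GR Pool.Agent.H53.GM
open Classical

/-- The structure with additional elements is valid. -/
theorem val_pls {τ : Sig} {N : ℕ} {F : Set (Str τ (Fin N))} (hH : Hyp τ N F) {n : ℕ}
    {M : Str τ (Fin n)} (hM : Val F M) : Val F (pls M N) := by
  intro D hD f hf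
  obtain ⟨l, z, hz, -⟩ := hH.atom D hD
  obtain ⟨z', -, -⟩ := hf l z hz
  have w0 : Fin n := z' ⟨0, (hH.ar l).1⟩
  refine hM D hD (fun v => if h : (f v : ℕ) < n then ⟨(f v : ℕ), h⟩ else w0) ?_
  intro l' y hy
  obtain ⟨y', hy', he⟩ := hf l' y hy
  have e : (fun i => if h : (f (y i) : ℕ) < n then (⟨(f (y i) : ℕ), h⟩ : Fin n) else w0) = y' := by
    funext i
    have h1 : f (y i) = Fin.castAdd N (y' i) := congrFun he i
    have h2 : (f (y i) : ℕ) = (y' i : ℕ) := by
      rw [h1]
      rfl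
    have h3 : (f (y i) : ℕ) < n := h2 ▸ (y' i).isLt
    rw [dif_pos h3]
    exact Fin.ext h2
  change M l' (fun i => if h : (f (y i) : ℕ) < n then (⟨(f (y i) : ℕ), h⟩ : Fin n) else w0)
  rw [e]
  exact hy'

theorem pf_REA (hATM : Pool.Agent.H53.GM.T_ATM) (hTPB : Pool.Agent.H53.GM.T_TPB)
    (hMXE : Pool.Agent.H53.GM.T_MXE) (hMXR : Pool.Agent.H53.GM.T_MXR) :
    Pool.Agent.H53.GM.T_REA := by
  intro τ σ N F Al hH n 𝕏 M hM hC
  have hMp := val_pls hH hM
  obtain ⟨P, hP, hsub⟩ := hMXE τ N F (Fin (n + N)) (tp N (pls M N) (fun i => i))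
    ⟨Fin (n + N), inferInstance, pls M N, fun i => i, hMp, rfl⟩
  obtain ⟨W', hW', M', b, hV', hPb⟩ := hP.1
  refine ⟨fun j α => ⟨j, rs α P⟩, ?_⟩
  intro s y t hr hyt
  refine ⟨W', hW', M', fun i => b (y i), hV', ?_, ?_, ?_⟩
  · cases s with
    | none => trivial
    | some l =>
      obtain ⟨z, hz, rfl⟩ := hr
      obtain ⟨c, hc, h, hMc⟩ := hC l z hz
      refine ⟨c, hc, h, ?_⟩
      have h1 : atm N c (fun i => Fin.castAdd N (z (Fin.cast h i))) ∈
          tp N (pls M N) (fun i : Fin (n + N) => i) :=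
        (hATM τ N F (Fin (n + N)) (Fin (n + N)) (pls M N) (fun i => i) c
          (fun i => Fin.castAdd N (z (Fin.cast h i))) hH).2 ⟨fun i => z (Fin.cast h i), hMc, rfl⟩
      have h2 := hsub h1
      rw [← hPb] at h2
      exact (hATM τ N F W' (Fin (n + N)) M' b c
          (fun i => Fin.castAdd N (z (Fin.cast h i))) hH).1 h2
  · intro a a' haa
    have h1 : y a = y a' := le_antisymm ((hyt a a').2 haa.le) ((hyt a' a).2 haa.ge)
    change b (y a) = b (y a')
    rw [h1]
  · intro j α hα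
    have hinj : Function.Injective (fun i => y (α i)) := by
      intro i i' hii
      have h0 : y (α i) = y (α i') := hii
      have h1 : t (α i) = t (α i') :=
        le_antisymm ((hyt _ _).1 h0.le) ((hyt _ _).1 h0.ge)
      exact hα.injective h1
    have hrs : tp N M' (fun i => b (y (α i))) = rs (fun i => y (α i)) P := by
      rw [← hPb]
      exact (hTPB τ N W' W' (Fin (n + N)) (Fin (j + 1)) M' M' b).2.1 (fun i => y (α i))
    refine ⟨?_, ?_⟩
    · change Mx F (tp N M' (fun i => b (y (α i))))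
      rw [hrs]
      exact hMXR τ N F (Fin (n + N)) (Fin (j + 1)) (fun i => y (α i)) P hH hinj hP
    · change (⟨j, rs (fun i => y (α i)) P⟩ : DmG τ N) = ⟨j, tp N M' (fun i => b (y (α i)))⟩
      rw [hrs]

end Pool.Agent.H81.GM
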